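import Pool.Agent.W_79d227_h9.Barrier

set_option autoImplicit false

namespace Pool.Agent.Results.MP_79d227_co.Barrier

open Pool.Agent.W_79d227_h9

/-- No submultiplicative upper bound for the independence number, and no finite family of them,
is bounded by a function of the independence number; and one graph works against all of those which
are at most `C` on the graphs with independence number at most two. -/
theorem result :
    (∀ (r : ℕ) (f : Fin r → ∀ (V : Type) [Fintype V], SimpleGraph V → ℝ),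
      (∀ j, SubmultBound (f j)) →
      ∃ k : ℕ, ∀ B : ℝ, ∃ (V : Type) (_ : Fintype V) (G : SimpleGraph V),
        AlphaLE G k ∧ ∀ j, B < f j V G) ∧
    (∀ C B : ℝ, 1 ≤ C → ∃ (V : Type) (_ : Fintype V) (G : SimpleGraph V) (k : ℕ),
      (k : ℝ) ≤ 20000 * C ^ 4 ∧ AlphaLE G k ∧
      ∀ f : ∀ (V : Type) [Fintype V], SimpleGraph V → ℝ, SubmultBound f →
        (∀ (W : Type) [Fintype W] (H : SimpleGraph W), AlphaLE H 2 → f W H ≤ C) →
        B < f V G) := by
  refine ⟨fun r f hf => ?_, fun C B hC => ?_⟩
  · obtain ⟨k, hk⟩ := barrier_fin r f hf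
    refine ⟨k, fun B => ?_⟩
    obtain ⟨V, iV, G, hG, h⟩ := hk B
    exact ⟨V, iV, G, hG, fun j => h j V G (GLe.refl G)⟩
  · obtain ⟨V, iV, G, k, hk, hG, h⟩ := univ_barrier_strong C B hC
    exact ⟨V, iV, G, k, hk, hG, fun f hf hb => h f hf (fun W _ G' hG' =>
      ⟨W, inferInstance, G', GLe.refl _, hb W G' hG'⟩) V G (GLe.refl G)⟩

end Pool.Agent.Results.MP_79d227_co.Barrier
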