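import Pool.Agent.W_79d227_kp.Final

set_option autoImplicit false

namespace Pool.Agent.Results.MP_79d227_co.KPointBarrier

open Pool.Agent.W_79d227_kp

/-- For every `k ≥ 2` the `k`-point semidefinite bound `kPoint` lies between the independence number
and the Lovász number of a graph, and on the strong powers `G ^ n` it is at least `t ^ n` for all
large `n`, for every `t` below the Lovász number of `G`. For `k = 2` (Schrijver's number) it is at
least `θ(G) ^ n / binom (n + N, N)` for all `n`, `N` the number of vertices. For every `B` there is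
a graph with independence number at most two such that for every `k` the `k`-point bound of `G ^ n`
is at least `B ^ n` for all large `n`. -/
theorem result :
    (∀ (V : Type) [Fintype V] [DecidableEq V] (G : SimpleGraph V) (k : ℕ), 2 ≤ k →
      (∀ T : Finset V, Ind G T → (T.card : ℝ) ≤ kPoint G k) ∧
      kPoint G k ≤ lovaszTheta G ∧
      ∀ t : ℝ, 0 ≤ t → t < lovaszTheta G →
        ∃ n₀ : ℕ, ∀ n, n₀ ≤ n → t ^ n ≤ kPoint (powG G n) k) ∧
    (∀ (V : Type) [Fintype V] [DecidableEq V] (G : SimpleGraph V) (n : ℕ),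
      lovaszTheta G ^ n / ((n + Fintype.card V).choose (Fintype.card V) : ℕ) ≤
        kPoint (powG G n) 2) ∧
    (∀ B : ℝ, ∃ (V : Type) (_ : Fintype V) (_ : DecidableEq V) (G : SimpleGraph V),
      (∀ T : Finset V, Ind G T → T.card ≤ 2) ∧
      ∀ k, 2 ≤ k → ∃ n₀ : ℕ, ∀ n, n₀ ≤ n → B ^ n ≤ kPoint (powG G n) k) := by
  refine ⟨?_, ?_, ?_⟩
  · intro V _ _ G k hk
    exact ⟨fun T hT => card_le_kPoint G hk hT, kPoint_le_theta G hk,
      fun t ht hlt => kPoint_power G hk ht hlt⟩
  · intro V _ _ G n
    exact schrijver_power G n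
  · intro B
    obtain ⟨V, i1, i2, G, hG, h⟩ := kPoint_unbounded B
    exact ⟨V, i1, i2, G, fun T hT => hG T fun a ha b hb _ => hT a ha b hb, h⟩

end Pool.Agent.Results.MP_79d227_co.KPointBarrier
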