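import Pool.Agent.W_79d227_ls.Fin

set_option autoImplicit false

namespace Pool.Agent.Results.MP_79d227_co.LasserreBarrier

open Pool.Agent.W_79d227_kp Pool.Agent.W_79d227_ls

/-- For every `t ≥ 1` the Lasserre bound of level `t` lies between the independence number and the
Lovász number, and for every `B` there is a graph `G` with independence number at most `6 t` such
that the Lasserre bound of level `t` of the strong power `G ^ n` is at least `B ^ n` for all `n`. -/
theorem result :
    (∀ (V : Type) [Fintype V] [DecidableEq V] (G : SimpleGraph V) (t : ℕ), 1 ≤ t →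
      (∀ T : Finset V, Ind G T → (T.card : ℝ) ≤ lasserre G t) ∧ lasserre G t ≤ lovaszTheta G) ∧
    (∀ t : ℕ, 1 ≤ t → ∀ B : ℝ,
      ∃ (V : Type) (_ : Fintype V) (_ : DecidableEq V) (G : SimpleGraph V),
        (∀ T : Finset V, Ind G T → T.card ≤ 6 * t) ∧ ∀ n, B ^ n ≤ lasserre (powG G n) t) := by
  refine ⟨?_, ?_⟩
  · intro V _ _ G t ht
    exact ⟨fun T hT => card_le_lasserre ht hT, lasserre_le_theta G ht⟩
  · intro t ht B
    exact lasserre_unbounded ht B

end Pool.Agent.Results.MP_79d227_co.LasserreBarrier
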