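import Pool.Agent.W_79d227_h37.Dual

/-!
# Multiplying the Shannon capacity by a fixed graph

`shannonCap V G` is the Shannon capacity `sup_{n ≥ 1} α(G^n)^(1/n)`, `strong` the strong product, `powG H m` the `m`-th strong
power (on words of length `m`), `(powG H m)ᶜ` its complement, `AlphaLE G k` says that the independence number of `G` is at most
`k`, `cliqueProb H μ k` is the probability that `k + 1` independent `μ`-random vertices of `H` are pairwise equal or adjacent.
-/

set_option autoImplicit false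

namespace Pool.Agent.Results.MP_79d227_co.ProductDefect

open Pool.Agent.W_79d227_h9 Pool.Agent.W_79d227_h37

/-- (i) If the Shannon capacity is bounded on the graphs with independence number at most `k`, then multiplication by a fixed
graph `H` multiplies the capacity of some graph by more than `c`, for every `c ≥ 1` with
`c ^ k * Pr[k + 1 random vertices of H are pairwise equal or adjacent] < 1`. (ii) A positive answer to the question gives every
`c` below the fractional packing number of `H`. (iii) For a vertex-transitive graph `H`, multiplication by `H` multiplies all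
capacities by at most `c` iff the complement of the `m`-th strong power of `H` has capacity at least `(|H| / c) ^ m` for all
`m ≥ 1`, iff this holds for infinitely many `m`. (iv), (v) So boundedness on `α ≤ k`, or a positive answer, make these
capacities small. (vi) The pentagon, `k = 7`. -/
theorem result :
    (∀ (V : Type) [Fintype V] (H : SimpleGraph V) (μ : V → ℝ), (∀ v, 0 ≤ μ v) → ∑ v, μ v = 1 →
      ∀ (k : ℕ) (c : ℝ), 1 ≤ c → c ^ k * cliqueProb H μ k < 1 →
      ∀ C : ℝ, (∀ (W : Type) [Fintype W] (G : SimpleGraph W), AlphaLE G k → shannonCap W G ≤ C) →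
      ∃ (U : Type) (_ : Fintype U) (G : SimpleGraph U),
        c * shannonCap U G < shannonCap (U × V) (strong G H)) ∧
    ((∃ g : ℕ → ℝ, ∀ (V : Type) [Fintype V] (G : SimpleGraph V) (k : ℕ),
        (∀ T : Finset V, (∀ a ∈ T, ∀ b ∈ T, a ≠ b → ¬ G.Adj a b) → T.card ≤ k) →
        ∀ (n : ℕ) (S : Finset (Fin n → V)),
          (∀ x ∈ S, ∀ y ∈ S, x ≠ y → ∃ i : Fin n, x i ≠ y i ∧ ¬ G.Adj (x i) (y i)) →
          (S.card : ℝ) ≤ g k ^ n) →
      ∀ (V : Type) [Fintype V] (H : SimpleGraph V) (x : V → ℝ), (∀ v, 0 ≤ x v) →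
        (∀ Q : Finset V, (∀ a ∈ Q, ∀ b ∈ Q, a ≠ b → H.Adj a b) → ∑ v ∈ Q, x v ≤ 1) →
        ∀ c : ℝ, 1 ≤ c → c < ∑ v, x v →
        ∃ (U : Type) (_ : Fintype U) (G : SimpleGraph U),
          c * shannonCap U G < shannonCap (U × V) (strong G H)) ∧
    -- the duality
    (∀ (V : Type) [Fintype V] [Nonempty V] (H : SimpleGraph V), VertexTransitive H →
      ∀ c : ℝ, 0 < c → List.TFAE [
        ∀ (U : Type) [Fintype U] (G : SimpleGraph U),
          shannonCap (U × V) (strong G H) ≤ c * shannonCap U G,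
        ∀ m : ℕ, 1 ≤ m → (Fintype.card V / c) ^ m ≤ shannonCap (Fin m → V) (powG H m)ᶜ,
        ∃ᶠ m : ℕ in Filter.atTop, (Fintype.card V / c) ^ m ≤
          shannonCap (Fin m → V) (powG H m)ᶜ]) ∧
    -- boundedness on `α ≤ k`
    (∀ (V : Type) [Fintype V] [Nonempty V] (H : SimpleGraph V), VertexTransitive H →
      ∀ (k : ℕ) (C : ℝ),
        (∀ (W : Type) [Fintype W] (G : SimpleGraph W), AlphaLE G k → shannonCap W G ≤ C) →
      ∀ D : ℝ, 0 < D → D ≤ Fintype.card V →
        (Fintype.card V / D) ^ k * cliqueProb H (fun _ => 1 / (Fintype.card V : ℝ)) k < 1 →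
      ∀ᶠ m : ℕ in Filter.atTop, shannonCap (Fin m → V) (powG H m)ᶜ < D ^ m) ∧
    -- a positive answer to the question
    ((∃ g : ℕ → ℝ, ∀ (V : Type) [Fintype V] (G : SimpleGraph V) (k : ℕ),
        (∀ T : Finset V, (∀ a ∈ T, ∀ b ∈ T, a ≠ b → ¬ G.Adj a b) → T.card ≤ k) →
        ∀ (n : ℕ) (S : Finset (Fin n → V)),
          (∀ x ∈ S, ∀ y ∈ S, x ≠ y → ∃ i : Fin n, x i ≠ y i ∧ ¬ G.Adj (x i) (y i)) →
          (S.card : ℝ) ≤ g k ^ n) →
      ∀ (V : Type) [Fintype V] [Nonempty V] (H : SimpleGraph V), VertexTransitive H →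
      ∀ w : ℕ, (∀ Q : Finset V, (∀ a ∈ Q, ∀ b ∈ Q, a ≠ b → H.Adj a b) → Q.card ≤ w) →
      ∀ D : ℝ, (w : ℝ) < D →
        ∀ᶠ m : ℕ in Filter.atTop, shannonCap (Fin m → V) (powG H m)ᶜ < D ^ m) ∧
    -- the pentagon
    (∀ C : ℝ, (∀ (W : Type) [Fintype W] (G : SimpleGraph W), AlphaLE G 7 → shannonCap W G ≤ C) →
      (∃ (U : Type) (_ : Fintype U) (G : SimpleGraph U),
        2.26 * shannonCap U G < shannonCap (U × Fin 5) (strong G (SimpleGraph.cycleGraph 5))) ∧
      ∀ᶠ m : ℕ in Filter.atTop,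
        shannonCap (Fin m → Fin 5) (powG (SimpleGraph.cycleGraph 5) m)ᶜ < 2.21 ^ m) := by
  have hQ : (∃ g : ℕ → ℝ, ∀ (V : Type) [Fintype V] (G : SimpleGraph V) (k : ℕ),
        (∀ T : Finset V, (∀ a ∈ T, ∀ b ∈ T, a ≠ b → ¬ G.Adj a b) → T.card ≤ k) →
        ∀ (n : ℕ) (S : Finset (Fin n → V)),
          (∀ x ∈ S, ∀ y ∈ S, x ≠ y → ∃ i : Fin n, x i ≠ y i ∧ ¬ G.Adj (x i) (y i)) →
          (S.card : ℝ) ≤ g k ^ n) →
      ∀ k : ℕ, ∃ C : ℝ, ∀ (W : Type) [Fintype W] (G : SimpleGraph W), AlphaLE G k →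
        shannonCap W G ≤ C := by
    rintro ⟨g, hg⟩ k
    refine ⟨g k, fun W _ G hG => ?_⟩
    have h := hg W G k hG
    have h0 : 0 ≤ g k := by
      have := h 1 ∅ (by simp)
      simpa using this
    exact shannonCap_le h0 fun n S _ hS => h n S hS
  refine ⟨?_, ?_, ?_, ?_, ?_, ?_⟩
  · intro V _ H μ hμ hμ1 k c hc hq C hC
    exact capacity_criterion H μ hμ hμ1 k c hc hq C hC
  · intro hg V _ H x hx hQ' c hc hcx
    exact capacity_question H x hx hQ' c hc hcx (hQ hg)
  · intro V _ _ H hH c hc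
    exact duality hH hc
  · intro V _ _ H hH k C hC D hD hDN hq
    exact small_k hH k C hC D hD hDN hq
  · intro hg V _ _ H hH w hw D hD
    exact small_compl hH w hw (hQ hg) D hD
  · intro C hC
    exact ⟨c5_big C hC, c5_small C hC⟩

end Pool.Agent.Results.MP_79d227_co.ProductDefect
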